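import Pool.Agent.Helper94_DMI.Stmts

/-!
Squad DMI, module CONT: continuity of `f D a` off the graph.
-/

set_option autoImplicit false

namespace Pool.Agent.DMI.H13

open Set Topology TopologicalSpace Filter Pool.Agent.DMI

lemma isClopen_cond (D : Dat) (a : A) (i : ℕ) :
    IsClopen {y : M | i ∈ D.J ∧ y.2.2.1 i = true ∧ agr i y.2.1 a} := by
  have h1 : IsClopen {y : M | y.2.2.1 i = true} := by
    have hc : Continuous (fun y : M => y.2.2.1 i) :=
      (continuous_apply i).comp (continuous_subtype_val.comp (continuous_snd.comp continuous_snd))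
    exact (isClopen_discrete ({true} : Set Bool)).preimage hc
  have h2 : IsClopen {y : M | agr i y.2.1 a} := by
    have : {y : M | agr i y.2.1 a} = ⋂ j ∈ Finset.range i, {y : M | y.2.1 j = a j} := by
      ext y
      simp [agr]
    rw [this]
    refine Set.Finite.isClopen_biInter (Finset.finite_toSet _) ?_
    intro j _
    have hc : Continuous (fun y : M => y.2.1 j) :=
      (continuous_apply j).comp (continuous_fst.comp continuous_snd)
    exact (isClopen_discrete ({a j} : Set Bool)).preimage hc
  by_cases hi : i ∈ D.J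
  · have : {y : M | i ∈ D.J ∧ y.2.2.1 i = true ∧ agr i y.2.1 a}
        = {y : M | y.2.2.1 i = true} ∩ {y : M | agr i y.2.1 a} := by
      ext y; simp [hi]
    rw [this]
    exact h1.inter h2
  · have : {y : M | i ∈ D.J ∧ y.2.2.1 i = true ∧ agr i y.2.1 a} = ∅ := by
      ext y; simp [hi]
    rw [this]
    exact isClopen_empty

lemma continuous_dist_gr (hL : LContStmt) (D : Dat) :
    Continuous (fun y : M => |y.1 - D.l y.2.2.1|) := by
  have h2 : Continuous (fun y : M => D.l y.2.2.1) :=
    (hL.1 D).comp (continuous_subtype_val.comp (continuous_snd.comp continuous_snd))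
  exact (continuous_fst.sub h2).abs

lemma continuous_lam : Continuous lam := by
  unfold lam
  fun_prop

open Classical in
lemma continuous_ft (hL : LContStmt) (D : Dat) (a : A) (i : ℕ) :
    Continuous (fun y : M => ft D a y i) := by
  unfold ft
  refine Continuous.if ?_ ?_ continuous_const
  · intro y hy
    rw [(isClopen_cond D a i).frontier_eq] at hy
    exact absurd hy (Set.notMem_empty _)
  · exact continuous_const.mul (continuous_lam.comp (continuous_const.mul (continuous_dist_gr hL D)))

lemma lam_zero {s : ℝ} (h : 2 ≤ s) : lam s = 0 := by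
  unfold lam
  have : min 1 (2 - s) ≤ 0 := le_trans (min_le_right _ _) (by linarith)
  exact max_eq_left this

/-- locally finite implies continuous at the point -/
lemma contAt_of_fin (hL : LContStmt) (D : Dat) (a : A) (y : M) (N : ℕ)
    (h : ∀ᶠ y' in 𝓝 y, ∀ i, N ≤ i → ft D a y' i = 0) : ContinuousAt (f D a) y := by
  have h1 : ContinuousAt (fun y' : M => ∑ i ∈ Finset.range N, ft D a y' i) y := by
    have : Continuous (fun y' : M => ∑ i ∈ Finset.range N, ft D a y' i) :=
      continuous_finsetSum _ (fun i _ => continuous_ft hL D a i)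
    exact this.continuousAt
  refine h1.congr ?_
  filter_upwards [h] with y' hy'
  unfold f
  rw [tsum_eq_sum (s := Finset.range N)]
  intro i hi
  apply hy'
  rw [Finset.mem_range] at hi
  omega

theorem cont (hL : LContStmt) : ContStmt := by
  intro D a y hy
  by_cases ha : y.2.1 = a
  · have hne : y.1 ≠ D.l y.2.2.1 := fun h => hy ⟨ha, h⟩
    have hpos : 0 < |y.1 - D.l y.2.2.1| := abs_pos.mpr (sub_ne_zero.mpr hne)
    set δ := |y.1 - D.l y.2.2.1| / 2 with hδ
    have hδ0 : 0 < δ := by rw [hδ]; linarith
    have hδ1 : δ < |y.1 - D.l y.2.2.1| := by rw [hδ]; linarith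
    obtain ⟨N, hN⟩ := pow_unbounded_of_one_lt (2 / δ) (one_lt_two : (1 : ℝ) < 2)
    refine contAt_of_fin hL D a y N ?_
    have hev : ∀ᶠ y' in 𝓝 y, δ < |y'.1 - D.l y'.2.2.1| :=
      (continuous_dist_gr hL D).continuousAt.eventually (lt_mem_nhds hδ1)
    filter_upwards [hev] with y' hy' i hi
    unfold ft
    split_ifs with hc
    · rw [lam_zero, mul_zero]
      have h1 : (2 : ℝ) ^ N ≤ 2 ^ i := pow_le_pow_right₀ (by norm_num) hi
      have h2 : 2 < (2 : ℝ) ^ N * δ := by
        rw [div_lt_iff₀ hδ0] at hN
        exact hN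
      have h3 : (2 : ℝ) ^ N * δ ≤ 2 ^ i * |y'.1 - D.l y'.2.2.1| :=
        mul_le_mul h1 hy'.le hδ0.le (by positivity)
      linarith
    · rfl
  · have hq : ∃ q, y.2.1 q ≠ a q := by
      by_contra hcon
      push Not at hcon
      exact ha (funext hcon)
    obtain ⟨q, hq⟩ := hq
    refine contAt_of_fin hL D a y (q + 1) ?_
    have hc : Continuous (fun y' : M => y'.2.1 q) :=
      (continuous_apply q).comp (continuous_fst.comp continuous_snd)
    have hev : ∀ᶠ y' in 𝓝 y, y'.2.1 q = y.2.1 q := by
      have := (isOpen_discrete ({y.2.1 q} : Set Bool)).preimage hc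
      exact this.mem_nhds rfl
    filter_upwards [hev] with y' hy' i hi
    unfold ft
    split_ifs with hcc
    · exfalso
      have := hcc.2.2 q (by omega)
      rw [hy'] at this
      exact hq this
    · rfl

end Pool.Agent.DMI.H13
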